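import Pool.Agent.Hhelper28.Rosenthal.Space

/-!
# A quotient of `C(K)`, `K` countable compact, containing an isomorphic copy of `ℓ²`

Own form of the answer (NO) to Q1 of MP_6f388c_an. The theorem `result` gives a countable compact
Hausdorff space `K`, a Banach space `X` with a metric quotient map `T` from `C(K)` onto `X` and a
linear embedding `J` of the Hilbert space `ℓ²` into `X` with
`‖v‖ / 26 ≤ ‖J v‖ ≤ ‖v‖` for all `v`. The range of `J` is closed, infinite-dimensional and contains
no isomorphic copy of `c₀`.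
-/

set_option autoImplicit false

open Filter Topology Set
open scoped ZeroAtInfty

namespace Pool.Agent.Results.MP_6f388c_an.EllTwo

open Pool.Agent.Hhelper28.Rosenthal

/-- the chosen unit vectors of the index set -/
noncomputable def zz (m : ℕ) : DD := (exists_unit m).choose

lemma zz_spec (m : ℕ) : (zz m).1 = Finsupp.single m 1 := (exists_unit m).choose_spec

/-- the images of the unit vectors -/
noncomputable def uu (m : ℕ) : XX := cl (Finsupp.single (zz m) 1)

lemma uu_mem (m : ℕ) : uu m ∈ YY := Submodule.le_topologicalClosure _ ⟨_, rfl⟩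

/-- finite combination -/
noncomputable def mu (v : ℕ → ℝ) (s : Finset ℕ) : DD →₀ ℝ := ∑ m ∈ s, Finsupp.single (zz m) (v m)

lemma cl_mu (v : ℕ → ℝ) (s : Finset ℕ) : cl (mu v s) = ∑ m ∈ s, v m • uu m := by
  unfold mu uu
  rw [map_sum]
  refine Finset.sum_congr rfl fun m _ => ?_
  rw [← map_smul, Finsupp.smul_single, smul_eq_mul, mul_one]

lemma QQ_mu (v : ℕ → ℝ) (s : Finset ℕ) : QQ (mu v s) = ∑ m ∈ s, Finsupp.single m (v m) := by
  unfold mu
  rw [map_sum]
  refine Finset.sum_congr rfl fun m _ => ?_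
  unfold QQ
  rw [Finsupp.linearCombination_single, zz_spec, Finsupp.smul_single, smul_eq_mul, mul_one]

lemma nsq_QQ_mu (v : ℕ → ℝ) (s : Finset ℕ) : nsq (QQ (mu v s)) = ∑ m ∈ s, (v m) ^ 2 := by
  classical
  rw [QQ_mu]
  have hval : ∀ k, (∑ m ∈ s, Finsupp.single m (v m) : ℕ →₀ ℝ) k = if k ∈ s then v k else 0 := by
    intro k
    rw [Finsupp.finsetSum_apply]
    simp only [Finsupp.single_apply]
    rw [Finset.sum_ite_eq']
  rw [nsq_eq_sum (s := s)]
  · refine Finset.sum_congr rfl fun m hm => ?_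
    rw [hval, if_pos hm]
  · intro k hk
    rw [Finsupp.mem_support_iff, hval] at hk
    by_contra hc
    rw [if_neg hc] at hk
    exact hk rfl

lemma norm_sum_le' (v : ℕ → ℝ) (s : Finset ℕ) :
    ‖∑ m ∈ s, v m • uu m‖ ≤ Real.sqrt (∑ m ∈ s, (v m) ^ 2) := by
  rw [← cl_mu, ← nsq_QQ_mu]
  exact norm_cl_le _

lemma le_norm_sum (v : ℕ → ℝ) (s : Finset ℕ) :
    Real.sqrt (∑ m ∈ s, (v m) ^ 2) ≤ 26 * ‖∑ m ∈ s, v m • uu m‖ := by
  rw [← cl_mu, ← nsq_QQ_mu]
  exact le_norm_cl _

/-- abbreviation for the real Hilbert space `ℓ²` -/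
abbrev L2 : Type := lp (fun _ : ℕ => ℝ) 2

lemma hasSum_sq (v : L2) : HasSum (fun i => (v i) ^ 2) (‖v‖ ^ 2) := by
  have h := lp.hasSum_norm (p := 2) (by norm_num) v
  have e : ∀ i, ‖v i‖ ^ (2 : ENNReal).toReal = (v i) ^ 2 := by
    intro i
    rw [ENNReal.toReal_ofNat]
    norm_num [Real.norm_eq_abs, sq_abs]
  have e2 : ‖v‖ ^ (2 : ENNReal).toReal = ‖v‖ ^ 2 := by
    rw [ENNReal.toReal_ofNat]
    norm_num
  rw [e2] at h
  simpa only [e] using h

lemma summable_uu (v : L2) : Summable (fun i => v i • uu i) := by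
  rw [summable_iff_vanishing_norm]
  intro ε hε
  have h := (hasSum_sq v).summable
  rw [summable_iff_vanishing_norm] at h
  obtain ⟨s, hs⟩ := h (ε ^ 2) (by positivity)
  refine ⟨s, fun t ht => ?_⟩
  have h1 := hs t ht
  have h0 : 0 ≤ ∑ i ∈ t, (v i) ^ 2 := Finset.sum_nonneg fun i _ => sq_nonneg _
  rw [Real.norm_eq_abs, abs_of_nonneg h0] at h1
  refine (norm_sum_le' (fun i => v i) t).trans_lt ?_
  rw [Real.sqrt_lt' hε]
  exact h1

/-- the embedding as a linear map -/
noncomputable def Jlin : L2 →ₗ[ℝ] XX where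
  toFun v := ∑' i, v i • uu i
  map_add' v w := by
    rw [← (summable_uu v).tsum_add (summable_uu w)]
    exact tsum_congr fun i => by rw [lp.coeFn_add, Pi.add_apply, add_smul]
  map_smul' c v := by
    rw [RingHom.id_apply, ← (summable_uu v).tsum_const_smul c]
    exact tsum_congr fun i => by rw [lp.coeFn_smul, Pi.smul_apply, smul_eq_mul, mul_smul]

lemma hasSum_J (v : L2) : HasSum (fun i => v i • uu i) (Jlin v) := (summable_uu v).hasSum

lemma norm_J_le (v : L2) : ‖Jlin v‖ ≤ ‖v‖ := by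
  refine le_of_tendsto (hasSum_J v).norm (Eventually.of_forall fun s => ?_)
  refine (norm_sum_le' (fun i => v i) s).trans ?_
  rw [Real.sqrt_le_left (norm_nonneg _)]
  exact sum_le_hasSum s (fun i _ => sq_nonneg _) (hasSum_sq v)

lemma le_norm_J (v : L2) : ‖v‖ / 26 ≤ ‖Jlin v‖ := by
  have h1 : Tendsto (fun s : Finset ℕ => Real.sqrt (∑ i ∈ s, (v i) ^ 2) / 26) atTop (𝓝 (‖v‖ / 26)) := by
    have h2 := (Real.continuous_sqrt.tendsto (‖v‖ ^ 2)).comp (hasSum_sq v)
    rw [Real.sqrt_sq (norm_nonneg _)] at h2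
    exact h2.div_const 26
  refine le_of_tendsto_of_tendsto h1 (hasSum_J v).norm (Eventually.of_forall fun s => ?_)
  have := le_norm_sum (fun i => v i) s
  simp only
  linarith

/-- the embedding -/
noncomputable def J : L2 →L[ℝ] XX := Jlin.mkContinuous 1 (fun v => by rw [one_mul]; exact norm_J_le v)

lemma J_apply (v : L2) : J v = Jlin v := rfl

lemma J_mem (v : L2) : J v ∈ YY := by
  have hc : IsClosed (YY : Set XX) := Submodule.isClosed_topologicalClosure _
  refine hc.mem_of_tendsto (hasSum_J v) (Eventually.of_forall fun s => ?_)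
  exact Submodule.sum_mem _ fun i _ => Submodule.smul_mem _ _ (uu_mem i)

/-- `X` is a metric quotient of `C(K)`: there is a continuous linear map from `C(K)` to `X` which maps
the open unit ball onto the open unit ball, that is, `X` is isometric to `C(K) / ker T` with the
quotient norm. -/
def IsMetricQuotientOfCK (K X : Type) [TopologicalSpace K] [CompactSpace K] [NormedAddCommGroup X]
    [NormedSpace ℝ X] : Prop :=
  ∃ T : C(K, ℝ) →L[ℝ] X, ∀ x : X, ‖x‖ < 1 ↔ ∃ f : C(K, ℝ), ‖f‖ < 1 ∧ T f = x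

/-- The set `Y` contains the range of an isomorphic embedding of `c₀`. -/
def ContainsC0 {X : Type} [NormedAddCommGroup X] [NormedSpace ℝ X] (Y : Set X) : Prop :=
  ∃ S : C₀(ℕ, ℝ) →L[ℝ] X, (∀ f, S f ∈ Y) ∧ ∃ c : ℝ, 0 < c ∧ ∀ f, c * ‖f‖ ≤ ‖S f‖

/-- `H` is `26`-isomorphic to a subspace of `X` without `c₀`: there is a continuous linear map `J`
from `H` to `X` with `‖v‖ / 26 ≤ ‖J v‖ ≤ ‖v‖` for all `v`, whose range is closed,
infinite-dimensional and contains no isomorphic copy of `c₀`. -/
def EmbedsWithoutC0 (H X : Type) [NormedAddCommGroup H] [NormedSpace ℝ H] [NormedAddCommGroup X]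
    [NormedSpace ℝ X] : Prop :=
  ∃ J : H →L[ℝ] X, (∀ v, ‖v‖ / 26 ≤ ‖J v‖ ∧ ‖J v‖ ≤ ‖v‖) ∧
    IsClosed (Set.range J) ∧ ¬ FiniteDimensional ℝ (Submodule.span ℝ (Set.range J)) ∧
    ¬ ContainsC0 (Set.range J)

lemma metric_TT (x : XX) : ‖x‖ < 1 ↔ ∃ f : C(KK, ℝ), ‖f‖ < 1 ∧ TT f = x := by
  constructor
  · intro hx
    obtain ⟨f, hf, hf'⟩ := exists_pr x (show (0 : ℝ) < 1 - ‖x‖ by linarith)
    exact ⟨f, by linarith, hf⟩
  · rintro ⟨f, hf, rfl⟩
    exact (norm_pr_le f).trans_lt hf

/-- **Main theorem.** There are a countable compact Hausdorff space `K` and a Banach space `X` such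
that `X` is a metric quotient of `C(K)` and contains an isomorphic copy of `ℓ²`. -/
theorem result :
    ∃ (K : Type) (_ : TopologicalSpace K) (_ : CompactSpace K) (_ : T2Space K) (_ : Countable K)
      (X : Type) (_ : NormedAddCommGroup X) (_ : NormedSpace ℝ X) (_ : CompleteSpace X),
      IsMetricQuotientOfCK K X ∧ EmbedsWithoutC0 (lp (fun _ : ℕ => ℝ) 2) X := by
  refine ⟨KK, inferInstance, inferInstance, inferInstance, inferInstance, XX, inferInstance,
    inferInstance, inferInstance, ⟨TT, metric_TT⟩, J, ?_, ?_, ?_, ?_⟩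
  · intro v
    exact ⟨le_norm_J v, norm_J_le v⟩
  · have hA : AntilipschitzWith 26 J := by
      refine ContinuousLinearMap.antilipschitz_of_bound J ?_
      intro v
      have := le_norm_J v
      rw [J_apply]
      push_cast
      linarith
    exact hA.isClosed_range J.uniformContinuous
  · intro hfin
    have hinj : Function.Injective Jlin := by
      rw [← LinearMap.ker_eq_bot, LinearMap.ker_eq_bot']
      intro v hv
      have h1 := le_norm_J v
      rw [hv, norm_zero] at h1
      have h2 := norm_nonneg v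
      exact norm_eq_zero.1 (by linarith)
    have e : L2 ≃ₗ[ℝ] LinearMap.range Jlin := LinearEquiv.ofInjective Jlin hinj
    have hspan : Submodule.span ℝ (Set.range J) = LinearMap.range Jlin := by
      have : Set.range J = (LinearMap.range Jlin : Set XX) := rfl
      rw [this, Submodule.span_eq]
    rw [hspan] at hfin
    have hf2 : FiniteDimensional ℝ L2 := Module.Finite.equiv e.symm
    have hli : LinearIndependent ℝ (fun i : ℕ => (lp.single 2 i (1 : ℝ) : L2)) := by
      rw [linearIndependent_iff']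
      intro s g hg i hi
      have h1 : ((∑ j ∈ s, g j • (lp.single 2 j (1 : ℝ) : L2) : L2) : ℕ → ℝ) i = 0 := by
        rw [hg]; rfl
      rw [lp.coeFn_sum, Finset.sum_apply] at h1
      rw [Finset.sum_eq_single i] at h1
      · simpa using h1
      · intro b _ hb
        have : (Pi.single b (1 : ℝ) : ℕ → ℝ) i = 0 := Pi.single_eq_of_ne (Ne.symm hb) 1
        simp [lp.coeFn_smul, this]
      · intro h
        exact absurd hi h
    have := hli.finite
    exact not_finite ℕ
  · rintro ⟨S, hS, c, hc, hc'⟩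
    refine no_c0 S (fun f => ?_) hc hc'
    obtain ⟨v, hv⟩ := hS f
    rw [← hv]
    exact J_mem v

end Pool.Agent.Results.MP_6f388c_an.EllTwo
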